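import Pool.Agent.GEN.StmtsR
import Pool.Agent.Helper42_Simp.ERoot

/-!
Row ERA of squad GEN: chains over an algebra, relative version of `Helper42_Simp/ERoot.lean`.
-/

set_option autoImplicit false

namespace Pool.Agent.GEN.H48

open MvPolynomial Pool.Agent.Helper6_Mono Pool.Agent.Helper30_Simp.H42

section ERoot

variable {σ : Type} {E B : Type} [CommRing E] [Algebra ℂ E] [AddCommGroup B] [Module ℂ B]
  [Module E B] [IsScalarTower ℂ E B]
variable {act : MvPolynomial σ ℂ →ₐ[ℂ] Module.End E B} {s : E} {d : σ → Module.End E B}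

theorem leibE1 (i : σ)
    (leibX : ∀ j b, d i (act (X j) b) = act (pderiv i (X j)) b + act (X j) (d i b))
    (p : MvPolynomial σ ℂ) (b : B) :
    d i (act p b) = act (pderiv i p) b + act p (d i b) := by
  induction p using MvPolynomial.induction_on generalizing b with
  | C a =>
    have h : act (C a) = algebraMap ℂ _ a := by
      rw [← act.commutes a]; rfl
    rw [h, Module.algebraMap_end_apply, Module.algebraMap_end_apply, pderiv_C, map_zero,
      LinearMap.zero_apply, zero_add, ← algebraMap_smul E a b, map_smul, algebraMap_smul]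
  | add p q hp hq =>
    simp only [map_add, LinearMap.add_apply, hp, hq]
    abel
  | mul_X p j hp =>
    have h : act (X j) (act (pderiv i p) b) = act (pderiv i p) (act (X j) b) := by
      rw [← Module.End.mul_apply, ← Module.End.mul_apply, ← map_mul, ← map_mul,
        mul_comm (pderiv i p)]
    simp only [map_mul, Module.End.mul_apply, Derivation.leibniz, smul_eq_mul, map_add,
      LinearMap.add_apply, hp, leibX, h]
    abel

theorem leibS1 (i : σ)
    (leibX : ∀ j b, d i (act (X j) b) = act (pderiv i (X j)) b + act (X j) (d i b))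
    (Q : Polynomial (MvPolynomial σ ℂ)) (b : B) :
    d i (evS act s Q b) = evS act s (DP i Q) b + evS act s Q (d i b) := by
  induction Q using Polynomial.induction_on' with
  | add p q hp hq =>
    rw [DP_add]
    simp only [map_add, LinearMap.add_apply, hp, hq]
    abel
  | monomial n a =>
    have h1 : ∀ (n : ℕ) (y : B), evS act s (Polynomial.X ^ n) y = s ^ n • y := by
      intro n y
      induction n with
      | zero => simp
      | succ n ih =>
        rw [pow_succ', evS_mul, ih, evS_X, smul_smul, pow_succ']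
    rw [DP_monomial, ← Polynomial.C_mul_X_pow_eq_monomial, ← Polynomial.C_mul_X_pow_eq_monomial,
      evS_mul, evS_mul, evS_mul, evS_C, evS_C, h1, h1, leibE1 i leibX, map_smul (d i)]

variable {f : MvPolynomial σ ℂ} {psi : ℕ → B} {N : Submodule E B} {z : σ}

theorem exists_pw1
    (leibX : ∀ i, i ≠ z → ∀ j b, d i (act (X j) b) = act (pderiv i (X j)) b + act (X j) (d i b))
    (mul_psi : ∀ n, act f (psi (n + 1)) = psi n)
    (d_psi : ∀ i, i ≠ z → ∀ n : ℕ,
      d i (psi n) = (s - (n : E)) • act (pderiv i f) (psi (n + 1)))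
    (hd : ∀ i, i ≠ z → ∀ b ∈ N, d i b ∈ N) (h0 : act f (psi 0) ∈ N) (w : List σ)
    (hw : z ∉ w) :
    ∃ Q : Polynomial (MvPolynomial σ ℂ), (∀ z : ℂ, Q.eval (C z) = pw f w z) ∧
      evS act s (Q * Polynomial.C f) (psi w.length) ∈ N := by
  induction w with
  | nil =>
    refine ⟨1, fun z => by simp [pw], ?_⟩
    rw [one_mul, evS_C]
    exact h0
  | cons i w ih =>
    have hi : i ≠ z := fun h => hw (by simp [h])
    obtain ⟨Q, hQ, hN⟩ := ih (fun h => hw (List.mem_cons_of_mem _ h))
    refine ⟨Polynomial.C f * DP i Q + (Polynomial.X + 1 - (w.length : Polynomial _)) *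
      Polynomial.C (pderiv i f) * Q, fun z => ?_, ?_⟩
    · rw [pw, Polynomial.eval_add, Polynomial.eval_mul, Polynomial.eval_mul, Polynomial.eval_mul,
        Polynomial.eval_C, Polynomial.eval_C, DP_eval, hQ]
      simp
    · have h1 := hd i hi _ hN
      have key : evS act s ((Polynomial.C f * DP i Q +
          (Polynomial.X + 1 - (w.length : Polynomial _)) *
            Polynomial.C (pderiv i f) * Q) * Polynomial.C f) (psi (w.length + 1))
          = d i (evS act s (Q * Polynomial.C f) (psi w.length)) := by
        rw [leibS1 i (leibX i hi), d_psi i hi]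
        have h2 : psi w.length = evS act s (Polynomial.C f) (psi (w.length + 1)) := by
          rw [evS_C, mul_psi]
        have h3 : (s - ((w.length : ℕ) : E)) • act (pderiv i f) (psi (w.length + 1))
            = evS act s ((Polynomial.X - (w.length : Polynomial _)) *
              Polynomial.C (pderiv i f)) (psi (w.length + 1)) := by
          rw [evS_mul, evS_C, map_sub, LinearMap.sub_apply, evS_X, evS_nat, sub_smul]
        have h4 : DP i (Q * Polynomial.C f) =
            DP i Q * Polynomial.C f + Q * Polynomial.C (pderiv i f) := by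
          clear hQ hN h1 h2 h3
          induction Q using Polynomial.induction_on' with
          | add p q hp hq =>
            rw [add_mul, DP_add, hp, hq, DP_add]
            ring
          | monomial n a =>
            rw [Polynomial.monomial_mul_C, DP_monomial, DP_monomial, Polynomial.monomial_mul_C,
              Polynomial.monomial_mul_C, Derivation.leibniz, ← map_add]
            congr 1
            simp only [smul_eq_mul]
            ring
        rw [h3, h4, h2, ← evS_mul, ← evS_mul, ← LinearMap.add_apply, ← map_add]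
        congr 2
        ring
      rw [List.length_cons, key]
      exact h1

theorem rel_mem
    (leibX : ∀ i, i ≠ z → ∀ j b, d i (act (X j) b) = act (pderiv i (X j)) b + act (X j) (d i b))
    (mul_psi : ∀ n, act f (psi (n + 1)) = psi n)
    (d_psi : ∀ i, i ≠ z → ∀ n : ℕ,
      d i (psi n) = (s - (n : E)) • act (pderiv i f) (psi (n + 1)))
    (hact : ∀ i, ∀ b ∈ N, act (X i) b ∈ N)
    (hd : ∀ i, i ≠ z → ∀ b ∈ N, d i b ∈ N) (h0 : act f (psi 0) ∈ N) (hf : f ≠ 0)
    (dd : ℕ) (be : ℕ → Polynomial ℂ)
    (P : List (Polynomial (MvPolynomial σ ℂ) × List σ)) (hPz : ∀ aw ∈ P, z ∉ aw.2)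
    (hP : ∀ n : ℕ,
      (∑ e ∈ Finset.range (dd + 1), C ((be e).eval (n : ℂ)) * X z ^ e) * f ^ n =
        (P.map fun aw => aw.1.eval (n : MvPolynomial σ ℂ) * dWord aw.2 (f ^ (n + 1))).sum) :
    ∑ e ∈ Finset.range (dd + 1), (Polynomial.aeval s (be e)) • act (X z ^ e) (psi 0) ∈ N := by
  choose! Q hQ hN' using fun w hw => exists_pw1 (N := N) leibX mul_psi d_psi hd h0 w hw
  obtain ⟨M, hM⟩ : ∃ M, ∀ aw ∈ P, aw.2.length ≤ M := by
    refine ⟨(P.map fun aw => aw.2.length).sum, fun aw haw => ?_⟩
    exact List.single_le_sum (by simp) _ (List.mem_map_of_mem haw)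
  have hpoly : (∑ e ∈ Finset.range (dd + 1), (be e).map C * Polynomial.C (X z ^ e)) *
      Polynomial.C (f ^ M) =
      (P.map fun aw => aw.1 * (Polynomial.C (f ^ (M + 1 - aw.2.length)) * Q aw.2)).sum := by
    refine eq_of_natP M fun n hn => ?_
    have h1 := hP n
    have h3 : f ^ (n - M) *
        ((∑ e ∈ Finset.range (dd + 1), C ((be e).eval (n : ℂ)) * X z ^ e) * f ^ M) =
        (∑ e ∈ Finset.range (dd + 1), C ((be e).eval (n : ℂ)) * X z ^ e) * f ^ n := by
      rw [mul_left_comm, ← pow_add, Nat.sub_add_cancel hn]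
    have h2 : (∑ e ∈ Finset.range (dd + 1), (be e).map C * Polynomial.C (X z ^ e)).eval
        (C (n : ℂ)) = ∑ e ∈ Finset.range (dd + 1), C ((be e).eval (n : ℂ)) * X z ^ e := by
      rw [Polynomial.eval_finsetSum]
      refine Finset.sum_congr rfl fun e _ => ?_
      rw [Polynomial.eval_mul, Polynomial.eval_C, Polynomial.eval_map, Polynomial.eval₂_at_apply]
    refine mul_left_cancel₀ (pow_ne_zero (n - M) hf) ?_
    rw [Polynomial.eval_mul, Polynomial.eval_C, h2, h3, h1, Polynomial.eval_listSum,
      List.map_map, ← List.sum_map_mul_left]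
    congr 1
    refine List.map_congr_left fun aw haw => ?_
    have h4 := hM aw haw
    rw [Function.comp_apply, dWord_pow f aw.2 n (by omega), show n + 1 - aw.2.length =
      (n - M) + (M + 1 - aw.2.length) by omega, pow_add, Polynomial.eval_mul,
      Polynomial.eval_mul, Polynomial.eval_C, hQ aw.2 (hPz aw haw)]
    simp only [map_natCast]
    ring
  have h5 : evS act s _ (psi M) = evS act s _ (psi M) :=
    congrArg (fun p => evS act s p (psi M)) hpoly
  have h6 := pow_psiE mul_psi M 0
  rw [zero_add] at h6
  have h10 : evS act s (∑ e ∈ Finset.range (dd + 1), (be e).map C * Polynomial.C (X z ^ e))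
      (psi 0) = ∑ e ∈ Finset.range (dd + 1),
        (Polynomial.aeval s (be e)) • act (X z ^ e) (psi 0) := by
    rw [map_sum, LinearMap.sum_apply]
    refine Finset.sum_congr rfl fun e _ => ?_
    rw [evS_mul, evS_C, evS_map]
  rw [evS_mul, evS_C, h6, h10] at h5
  rw [h5]
  refine list_mem P _ _ fun aw haw => ?_
  have h7 := hM aw haw
  have h8 : Polynomial.C (f ^ (M + 1 - aw.2.length)) * Q aw.2 =
      (Q aw.2 * Polynomial.C f) * Polynomial.C (f ^ (M - aw.2.length)) := by
    rw [show M + 1 - aw.2.length = (M - aw.2.length) + 1 by omega, pow_succ, map_mul]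
    ring
  have h9 := pow_psiE mul_psi (M - aw.2.length) aw.2.length
  rw [show aw.2.length + (M - aw.2.length) = M by omega] at h9
  rw [h8, evS_mul, evS_mul act s (Q aw.2 * _), evS_C, h9]
  exact evS_mem hact _ _ (hN' aw.2 (hPz aw haw))

end ERoot

/-- ROW ERA -/
theorem era : ERootStmtA := by
  intro σ _ E B _ _ _ _ _ _ f s z act d leibX psi mul_psi d_psi N hact hd h0 dd be hb
  rcases eq_or_ne f 0 with rfl | hf
  · have h1 := mul_psi 0
    rw [map_zero, LinearMap.zero_apply] at h1
    refine N.sum_mem fun e _ => ?_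
    rw [← h1, map_zero, smul_zero]
    exact N.zero_mem
  · obtain ⟨P, hPz, hP⟩ := hb
    exact rel_mem leibX mul_psi d_psi hact hd h0 hf dd be P hPz hP

end Pool.Agent.GEN.H48
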